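import Pool.Agent.Run7.h236.HR13

/-!
Every cubic graph of girth at least `5` with an abelian group of automorphisms acting semiregularly
with at most two orbits on the vertices has a total colouring with four colours, and so have all
its covers.

The two main families are the I-graphs of abelian groups (with the generalized Petersen graphs),
see `iGraph_typeOne`, and the cubic Haar graphs of abelian groups (the toroidal polyhexes), see
`haar_typeOne`.

Idea of the proof.  Let `u`, `w` be the two periods.  If a character sends them to angles `α`, `β`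
in `[1/4, 1/2]` with `α + β ≤ 3/4` (for one of the symmetric choices of the two periods), then
there is a colouring in which the colour of a vertex or edge is given by the position of its angle
with respect to a few points of the circle (`interval_col`, `interval_colI`).  The values of the
characters form a finite subgroup of the torus, and a reduction of the lattice of relations shows
that it always meets these triangles, apart from finitely many exceptional lattices
(`arithH`, `arithI`), for which tables are given (`HR6`).
-/

set_option autoImplicit false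

namespace Pool.Agent.Results.MP_e0a484_co.AbelianTwoOrbits

theorem result :
    ∀ (W : Type) [Fintype W] [DecidableEq W] (H : SimpleGraph W) [DecidableRel H.Adj],
      H.IsRegularOfDegree 3 →
      (∀ (u : W) (p : H.Walk u u), p.IsCycle → 5 ≤ p.length) →
      ∀ (A : Type) [AddCommGroup A] [AddAction A W],
      (∀ (a : A) (x y : W), H.Adj x y → H.Adj (a +ᵥ x) (a +ᵥ y)) →
      (∀ (a : A) (x : W), a +ᵥ x = x → a = 0) →
      (∃ p q : W, ∀ x : W, ∃ a : A, x = a +ᵥ p ∨ x = a +ᵥ q) →
      ∀ (V : Type) (G : SimpleGraph V) (φ : V → W),
      (∀ u v : V, G.Adj u v → H.Adj (φ u) (φ v)) →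
      (∀ u v w : V, G.Adj u v → G.Adj u w → φ v = φ w → v = w) →
      ∃ (c : V → Fin 4) (d : V → V → Fin 4),
        (∀ u v : V, G.Adj u v → d u v = d v u) ∧
        (∀ u v : V, G.Adj u v → c u ≠ c v) ∧
        (∀ u v w : V, G.Adj u v → G.Adj u w → v ≠ w → d u v ≠ d u w) ∧
        (∀ u v : V, G.Adj u v → d u v ≠ c u) := by
  intro W _ _ H _ hreg hg A _ _ hact hfree horb V G φ hφ hφ'
  obtain ⟨p, q, horb⟩ := horb
  exact (Run7.h236.HR.two_orbits H hreg hg hact hfree p q horb).pullback φ hφ hφ'

/-- The I-graph of the abelian group `B` with parameters `a`, `b`: the edges are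
`(x, false) (x + a, false)`, `(x, true) (x + b, true)` and `(x, false) (x, true)`.  For
`B = ZMod n`, `a = 1`, `b = k` this is the generalized Petersen graph with parameters `n`, `k`. -/
def iGraph (B : Type) [AddCommGroup B] (a b : B) : SimpleGraph (B × Bool) :=
  SimpleGraph.fromRel (fun x y => (x.2 = false ∧ y.2 = false ∧ y.1 = x.1 + a) ∨
    (x.2 = true ∧ y.2 = true ∧ y.1 = x.1 + b) ∨ (x.2 = false ∧ y.2 = true ∧ y.1 = x.1))

/-- The Haar graph of the abelian group `B` with connection set `S`: the edges are
`(x, false) (x + s, true)`, `s ∈ S`. -/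
def haar (B : Type) [AddCommGroup B] (S : Set B) : SimpleGraph (B × Bool) :=
  SimpleGraph.fromRel (fun x y => x.2 = false ∧ y.2 = true ∧ y.1 - x.1 ∈ S)

/-- The translations. -/
@[reducible] def transl (B : Type) [AddCommGroup B] : AddAction B (B × Bool) where
  vadd a x := (a + x.1, x.2)
  zero_vadd x := by
    show ((0 : B) + x.1, x.2) = x
    rw [zero_add]
  add_vadd a b x := by
    show (a + b + x.1, x.2) = (a + (b + x.1), x.2)
    rw [add_assoc]

theorem transl_apply (B : Type) [AddCommGroup B] (a : B) (x : B × Bool) :
    letI := transl B; a +ᵥ x = (a + x.1, x.2) := rfl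

/-- Generalized Petersen graphs and I-graphs of girth at least five. -/
theorem iGraph_typeOne (B : Type) [AddCommGroup B] [Fintype B] [DecidableEq B] (a b : B)
    [DecidableRel (iGraph B a b).Adj] (h3 : (iGraph B a b).IsRegularOfDegree 3)
    (h5 : ∀ (u : B × Bool) (p : (iGraph B a b).Walk u u), p.IsCycle → 5 ≤ p.length) :
    Run7.h236.HR.TC (iGraph B a b) := by
  let _ := transl B
  refine result (B × Bool) (iGraph B a b) h3 h5 B ?_ ?_
    ⟨(0, false), (0, true), ?_⟩ (B × Bool) (iGraph B a b) id (fun _ _ h => h) (fun _ _ _ _ _ h => h)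
  · intro c x y h
    rw [transl_apply, transl_apply]
    simp only [iGraph, SimpleGraph.fromRel_adj, ne_eq, Prod.ext_iff, add_assoc,
      add_right_inj] at h ⊢
    exact h
  · intro c x h
    rw [transl_apply, Prod.ext_iff] at h
    exact add_eq_right.1 h.1
  · rintro ⟨x, s⟩
    refine ⟨x, ?_⟩
    rw [transl_apply, transl_apply]
    cases s <;> simp

/-- Cubic Haar graphs of abelian groups of girth at least five. -/
theorem haar_typeOne (B : Type) [AddCommGroup B] [Fintype B] [DecidableEq B] (S : Set B)
    [DecidableRel (haar B S).Adj] (h3 : (haar B S).IsRegularOfDegree 3)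
    (h5 : ∀ (u : B × Bool) (p : (haar B S).Walk u u), p.IsCycle → 5 ≤ p.length) :
    Run7.h236.HR.TC (haar B S) := by
  let _ := transl B
  refine result (B × Bool) (haar B S) h3 h5 B ?_ ?_
    ⟨(0, false), (0, true), ?_⟩ (B × Bool) (haar B S) id (fun _ _ h => h) (fun _ _ _ _ _ h => h)
  · intro c x y h
    rw [transl_apply, transl_apply]
    simp only [haar, SimpleGraph.fromRel_adj, ne_eq, Prod.ext_iff, add_right_inj,
      add_sub_add_left_eq_sub] at h ⊢
    exact h
  · intro c x h
    rw [transl_apply, Prod.ext_iff] at h
    exact add_eq_right.1 h.1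
  · rintro ⟨x, s⟩
    refine ⟨x, ?_⟩
    rw [transl_apply, transl_apply]
    cases s <;> simp

end Pool.Agent.Results.MP_e0a484_co.AbelianTwoOrbits
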