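import Pool.Agent.Run7.h236.FS11

/-!
Total colourings with four colours of cubic graphs, from a parity argument of the kind used for the
cycle-plus-triangles theorem.

`I` is an independent set, the involution `n` is a perfect matching `N` of `G - I`, and every
component of `(G - I) - N` is either a single edge `{v, s v}` (when `v` has a neighbour in `I`) or
a hexagon on which `s` is the antipodal map (when `v` has no neighbour in `I`).  The pairs
`{v, n v}` and `{v, s v}` together form one cycle through all the vertices outside `I`.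

The case without hexagons is that of a cubic graph with an induced cycle of even length whose
complement is an independent set, see `even_cycle` below.
-/

set_option autoImplicit false

namespace Pool.Agent.Results.MP_e0a484_co.CyclePlusTriangles

theorem result :
    ∀ (V : Type) [Fintype V] [DecidableEq V] (G : SimpleGraph V) [DecidableRel G.Adj],
      G.IsRegularOfDegree 3 →
      ∀ (I : Set V) (n s : V → V),
      (∀ u ∈ I, ∀ v ∈ I, ¬ G.Adj u v) →
      (∀ v, v ∉ I → n v ∉ I ∧ G.Adj v (n v) ∧ n (n v) = v) →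
      (∀ v, v ∉ I → s v ∉ I ∧ s (s v) = v) →
      (∀ v, v ∉ I → (∃ i ∈ I, G.Adj v i) → G.Adj v (s v) ∧ s v ≠ n v) →
      (∀ v, v ∉ I → (∀ i ∈ I, ¬ G.Adj v i) →
        ∃ a b, [v, a, b, s v, s a, s b].Nodup ∧ b ∉ I ∧
          G.Adj v a ∧ G.Adj a b ∧ G.Adj b (s v) ∧ G.Adj (s v) (s a) ∧ G.Adj (s a) (s b) ∧
          G.Adj (s b) v ∧
          a ≠ n v ∧ b ≠ n a ∧ s v ≠ n b ∧ s a ≠ n (s v) ∧ s b ≠ n (s a) ∧ v ≠ n (s b)) →
      (∀ S : Set V, S.Nonempty → (∀ v ∈ S, v ∉ I ∧ n v ∈ S ∧ s v ∈ S) →
        ∀ v, v ∉ I → v ∈ S) →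
      ∃ (c : V → Fin 4) (d : V → V → Fin 4),
        (∀ u v : V, G.Adj u v → d u v = d v u) ∧
        (∀ u v : V, G.Adj u v → c u ≠ c v) ∧
        (∀ u v w : V, G.Adj u v → G.Adj u w → v ≠ w → d u v ≠ d u w) ∧
        (∀ u v : V, G.Adj u v → d u v ≠ c u) := by
  intro V _ _ G _ hG I n s hI hn hs hT hX hconn
  exact Run7.h236.FS.estar G hG I hI n s hn hs hT hX hconn

/-- The case of an induced cycle of even length whose complement is independent. -/
theorem even_cycle {V : Type} [Fintype V] [DecidableEq V] (G : SimpleGraph V)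
    [DecidableRel G.Adj] (hG : G.IsRegularOfDegree 3) (k : ℕ) (c : ZMod (2 * k) → V)
    (hc : Function.Injective c)
    (hcc : ∀ i j : ZMod (2 * k), G.Adj (c i) (c j) ↔ (j = i + 1 ∨ i = j + 1))
    (hI : ∀ u v : V, u ∉ Set.range c → v ∉ Set.range c → ¬ G.Adj u v) :
    ∃ (c : V → Fin 4) (d : V → V → Fin 4),
      (∀ u v : V, G.Adj u v → d u v = d v u) ∧
      (∀ u v : V, G.Adj u v → c u ≠ c v) ∧
      (∀ u v w : V, G.Adj u v → G.Adj u w → v ≠ w → d u v ≠ d u w) ∧
      (∀ u v : V, G.Adj u v → d u v ≠ c u) :=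
  Run7.h236.FS.induced_even_cycle G hG k c hc hcc hI

end Pool.Agent.Results.MP_e0a484_co.CyclePlusTriangles
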